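import Mathlib

/-!
# Euler tours and shortcuts

The proof of `euler` follows `Pool.Agent.Y468.CF.EU` (a longest trail), the shortcut follows
`Pool.Agent.Y549.TC.Short`.
-/

set_option autoImplicit false
set_option linter.unusedSectionVars false

namespace Pool.Agent.R553.SP

open Finset

/-- two edges of a multigraph with a common end -/
def Share {E Q : Type} (a b : E → Q) (e f : E) : Prop :=
  a e = a f ∨ a e = b f ∨ b e = a f ∨ b e = b f

/-- closed chain -/
def CC {α : Type*} (R : α → α → Prop) (l : List α) : Prop :=
  l.IsChain R ∧ ∀ y ∈ l.getLast?, ∀ z ∈ l.head?, R y z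

lemma cc_rot {α : Type*} (R : α → α → Prop) (A B : List α) (h : CC R (A ++ B)) :
    CC R (B ++ A) := by
  rcases A with _ | ⟨x, A⟩
  · simpa using h
  rcases B with _ | ⟨y, B⟩
  · simpa using h
  obtain ⟨h1, h2⟩ := h
  rw [List.isChain_append] at h1
  refine ⟨List.isChain_append.2 ⟨h1.2.1, h1.1, ?_⟩, ?_⟩
  · intro u hu v hv
    apply h2 u _ v _
    · rw [List.getLast?_append_of_ne_nil _ (by simp)]
      exact hu
    · rw [List.head?_append_of_ne_nil _ (by simp)]
      exact hv
  · intro u hu v hv
    rw [List.getLast?_append_of_ne_nil _ (by simp)] at hu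
    rw [List.head?_append_of_ne_nil _ (by simp)] at hv
    exact h1.2.2 u hu v hv

section
variable {E Q : Type} (a b : E → Q)

/-- tail of a dart -/
def tl (x : E × Bool) : Q := if x.2 then a x.1 else b x.1

/-- head of a dart -/
def hd (x : E × Bool) : Q := if x.2 then b x.1 else a x.1

/-- trail of darts -/
def Tra (l : List (E × Bool)) : Prop :=
  (l.map Prod.fst).Nodup ∧ l.IsChain (fun x y => hd a b x = tl a b y)

variable [DecidableEq Q]

/-- number of ends at `p` -/
def ne (p : Q) (e : E) : ℕ := (if a e = p then 1 else 0) + (if b e = p then 1 else 0)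

lemma ne_dart (p : Q) (x : E × Bool) :
    ne a b p x.1 = (if tl a b x = p then 1 else 0) + (if hd a b x = p then 1 else 0) := by
  obtain ⟨e, s⟩ := x
  unfold ne tl hd
  cases s
  · simp [add_comm]
  · simp

lemma parity (p : Q) (l : List (E × Bool)) (x : E × Bool)
    (h : (x :: l).IsChain (fun x y => hd a b x = tl a b y)) :
    (((x :: l).map (fun y => ne a b p y.1)).sum + ((if tl a b x = p then 1 else 0) +
      (if hd a b ((x :: l).getLast (by simp)) = p then 1 else 0))) % 2 = 0 := by
  induction l generalizing x with
  | nil =>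
    simp only [List.map_cons, List.map_nil, List.sum_cons, List.sum_nil, List.getLast_singleton]
    rw [ne_dart]
    by_cases h1 : tl a b x = p <;> by_cases h2 : hd a b x = p <;> simp [h1, h2]
  | cons y l ih =>
    rw [List.isChain_cons_cons] at h
    have h1 := ih y h.2
    rw [List.getLast_cons (by simp : y :: l ≠ [])]
    rw [List.map_cons, List.sum_cons, ne_dart, h.1]
    set A := ((y :: l).map (fun y => ne a b p y.1)).sum
    set B := (if hd a b ((y :: l).getLast (by simp)) = p then 1 else 0 : ℕ)
    set C := (if tl a b y = p then 1 else 0 : ℕ)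
    set D := (if tl a b x = p then 1 else 0 : ℕ)
    omega

variable [Fintype E] [DecidableEq E]

/-- a longer trail -/
lemma extend (l : List (E × Bool)) (hl : Tra a b l) (hne : l ≠ []) (f : E)
    (hf : f ∉ l.map Prod.fst) (h : hd a b (l.getLast hne) = a f ∨ hd a b (l.getLast hne) = b f) :
    ∃ l', Tra a b l' ∧ l'.length = l.length + 1 := by
  have key : ∀ g : E × Bool, g.1 = f → hd a b (l.getLast hne) = tl a b g →
      Tra a b (l ++ [g]) := by
    intro g hg hgt
    constructor
    · rw [List.map_append, List.nodup_append]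
      refine ⟨hl.1, by simp, ?_⟩
      intro u hu v hv huv
      simp only [List.map_cons, List.map_nil, List.mem_singleton] at hv
      subst huv
      rw [hv, hg] at hu
      exact hf hu
    · rw [List.isChain_append]
      refine ⟨hl.2, by simp, ?_⟩
      intro u hu v hv
      rw [List.getLast?_eq_getLast_of_ne_nil hne] at hu
      simp only [Option.mem_def, Option.some.injEq, List.head?_cons] at hu hv
      subst hu
      subst hv
      exact hgt
  rcases h with h | h
  · exact ⟨l ++ [(f, true)], key (f, true) rfl (by simpa [tl] using h), by simp⟩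
  · exact ⟨l ++ [(f, false)], key (f, false) rfl (by simpa [tl] using h), by simp⟩

/-- a connected multigraph with all degrees even has an Euler tour -/
theorem euler [Nonempty E]
    (hev : ∀ q, Even ((univ.filter fun e => a e = q).card + (univ.filter fun e => b e = q).card))
    (hconn : ∀ S : Set E, S.Nonempty → Sᶜ.Nonempty → ∃ e ∈ S, ∃ f ∉ S, Share a b e f) :
    ∃ l : List (E × Bool), l ≠ [] ∧ (l.map Prod.fst).Nodup ∧ (∀ f, f ∈ l.map Prod.fst) ∧
      CC (fun x y => hd a b x = tl a b y) l := by
  classical
  -- a longest trail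
  set P : ℕ → Prop := fun n => ∃ l, Tra a b l ∧ l.length = n with hP
  have hbound : ∀ l, Tra a b l → l.length ≤ Fintype.card E := by
    intro l hl
    have := hl.1.length_le_card
    rwa [List.length_map] at this
  obtain ⟨e0⟩ := ‹Nonempty E›
  have hP1 : P 1 := ⟨[(e0, true)], ⟨by simp, by simp⟩, rfl⟩
  have hcard : 1 ≤ Fintype.card E := Fintype.card_pos_iff.2 ⟨e0⟩
  have hPm := Nat.findGreatest_spec (P := P) hcard hP1
  obtain ⟨l, hl, hlen⟩ := hPm
  have hmax : ∀ l', Tra a b l' → l'.length ≤ l.length := by
    intro l' hl'
    rw [hlen]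
    exact Nat.le_findGreatest (hbound l' hl') ⟨l', hl', rfl⟩
  have hl1 : 1 ≤ l.length := hmax [(e0, true)] ⟨by simp, by simp⟩
  have hne : l ≠ [] := by
    rintro rfl
    simp at hl1
  have hno : ∀ l' : List (E × Bool), Tra a b l' → ∀ hne' : l' ≠ [], l'.length = l.length →
      ∀ f, f ∉ l'.map Prod.fst → hd a b (l'.getLast hne') ≠ a f ∧
        hd a b (l'.getLast hne') ≠ b f := by
    intro l' hl' hne' hlen' f hf
    by_contra hcon
    rw [not_and_or, not_not, not_not] at hcon
    obtain ⟨l2, h2, h3⟩ := extend a b l' hl' hne' f hf hcon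
    have := hmax l2 h2
    omega
  -- the longest trail is closed
  have hclosed : tl a b (l.head hne) = hd a b (l.getLast hne) := by
    by_contra hcon
    set p := hd a b (l.getLast hne) with hp
    obtain ⟨x, l0, rfl⟩ := List.exists_cons_of_ne_nil hne
    have h1 := parity a b p l0 x hl.2
    simp only [List.head_cons] at hcon
    rw [if_neg hcon, if_pos hp.symm] at h1
    have h2 : ((x :: l0).map (fun y => ne a b p y.1)).sum
        = ∑ e ∈ ((x :: l0).map Prod.fst).toFinset, ne a b p e := by
      rw [List.sum_toFinset _ hl.1, List.map_map]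
      rfl
    have h3 : ∑ e ∈ ((x :: l0).map Prod.fst).toFinset, ne a b p e = ∑ e, ne a b p e := by
      apply Finset.sum_subset (Finset.subset_univ _)
      intro f _ hf
      rw [List.mem_toFinset] at hf
      obtain ⟨h4, h5⟩ := hno (x :: l0) hl hne rfl f hf
      unfold ne
      rw [if_neg (fun h => h4 h.symm), if_neg (fun h => h5 h.symm), add_zero]
    have h4 : ∑ e, ne a b p e
        = (univ.filter fun e => a e = p).card + (univ.filter fun e => b e = p).card := by
      unfold ne
      rw [Finset.sum_add_distrib, Finset.card_filter, Finset.card_filter]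
    have h5 := hev p
    rw [h2, h3, h4] at h1
    rw [Nat.even_iff] at h5
    omega
  have hCC : CC (fun x y => hd a b x = tl a b y) l := by
    refine ⟨hl.2, ?_⟩
    intro u hu v hv
    rw [List.getLast?_eq_getLast_of_ne_nil hne] at hu
    rw [List.head?_eq_some_head hne] at hv
    simp only [Option.mem_def, Option.some.injEq] at hu hv
    subst hu
    subst hv
    exact hclosed.symm
  -- every edge is used
  have hall : ∀ f, f ∈ l.map Prod.fst := by
    by_contra hcon
    push Not at hcon
    obtain ⟨f0, hf0⟩ := hcon
    obtain ⟨e, he, f, hf, hsh⟩ := hconn {e | e ∈ l.map Prod.fst}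
      ⟨(l.head hne).1, List.mem_map.2 ⟨l.head hne, List.head_mem hne, rfl⟩⟩ ⟨f0, hf0⟩
    obtain ⟨x, hx, rfl⟩ := List.mem_map.1 (show e ∈ l.map Prod.fst from he)
    obtain ⟨A, B, rfl⟩ := List.append_of_mem hx
    have hf' : f ∉ (A ++ x :: B).map Prod.fst := hf
    -- the two rotations
    have r1 : CC (fun x y => hd a b x = tl a b y) ((x :: B) ++ A) := cc_rot _ _ _ hCC
    have r2 : CC (fun x y => hd a b x = tl a b y) (B ++ (A ++ [x])) := by
      apply cc_rot
      rw [List.append_assoc]
      exact hCC
    have p1 : ((x :: B) ++ A).Perm (A ++ x :: B) := List.perm_append_comm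
    have p2 : (B ++ (A ++ [x])).Perm (A ++ x :: B) := by
      have : (B ++ (A ++ [x])).Perm ((A ++ [x]) ++ B) := List.perm_append_comm
      rwa [List.append_assoc] at this
    have t1 : Tra a b ((x :: B) ++ A) := ⟨((p1.map Prod.fst).nodup_iff).2 hl.1, r1.1⟩
    have t2 : Tra a b (B ++ (A ++ [x])) := ⟨((p2.map Prod.fst).nodup_iff).2 hl.1, r2.1⟩
    have n1 : (x :: B) ++ A ≠ [] := by simp
    have n2 : B ++ (A ++ [x]) ≠ [] := by simp
    have c1 := hno _ t1 n1 p1.length_eq f (fun h => hf' ((p1.map Prod.fst).mem_iff.1 h))
    have c2 := hno _ t2 n2 p2.length_eq f (fun h => hf' ((p2.map Prod.fst).mem_iff.1 h))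
    have g1 : hd a b (((x :: B) ++ A).getLast n1) = tl a b x := by
      apply r1.2
      · rw [List.getLast?_eq_getLast_of_ne_nil n1]
        exact rfl
      · simp
    have g2 : hd a b ((B ++ (A ++ [x])).getLast n2) = hd a b x := by
      congr 1
      simp
    rw [g1] at c1
    rw [g2] at c2
    obtain ⟨e, s⟩ := x
    unfold Share at hsh
    unfold tl at c1
    unfold hd at c2
    cases s <;> simp_all
  exact ⟨l, hne, hl.1, hall, hCC⟩

end

section short
variable {V : Type}

/-- length of the path `u, l, z` -/
noncomputable def Q (d : V → V → ℝ) : V → List V → V → ℝ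
  | u, [], z => d u z
  | u, a :: l, z => d u a + Q d a l z

theorem tri (d : V → V → ℝ) (h : ∀ a b c, d a c ≤ d a b + d b c) (u a z : V) (m : List V) :
    Q d u m z ≤ d u a + Q d a m z := by
  cases m with
  | nil => exact h u a z
  | cons b m =>
    show d u b + Q d b m z ≤ d u a + (d a b + Q d b m z)
    have := h u a b
    linarith

theorem sub (d : V → V → ℝ) (h : ∀ a b c, d a c ≤ d a b + d b c) (z : V) (m l : List V)
    (hs : List.Sublist m l) : ∀ u, Q d u m z ≤ Q d u l z := by
  induction hs with
  | slnil => intro u; exact le_rfl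
  | cons a hs ih =>
    intro u
    exact (tri d h u a z _).trans (add_le_add le_rfl (ih a))
  | cons_cons a hs ih =>
    intro u
    exact add_le_add le_rfl (ih a)

theorem sumQ (d : V → V → ℝ) (z : V) (m : List V) : ∀ u : V,
    ∑ i : Fin m.length, d ((u :: m).get i.castSucc) ((u :: m).get i.succ) +
      d ((u :: m).get (Fin.last _)) z = Q d u m z := by
  induction m with
  | nil => intro u; simp [Q]
  | cons a m ih =>
    intro u
    have h := ih a
    show ∑ i : Fin (m.length + 1), d ((u :: a :: m).get i.castSucc) ((u :: a :: m).get i.succ) +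
      d ((u :: a :: m).get (Fin.last _)) z = d u a + Q d a m z
    rw [Fin.sum_univ_succ, ← h]
    simp only [List.get_eq_getElem, Fin.val_castSucc, Fin.val_succ, Fin.val_zero, Fin.val_last,
      List.getElem_cons_succ, List.getElem_cons_zero, List.length_cons]
    ring

/-- a closed walk through all points is at least as long as some tour -/
theorem shortcut [Fintype V] [DecidableEq V] (d : V → V → ℝ)
    (htri : ∀ a b c, d a c ≤ d a b + d b c) (x : V) (w : List V) (hw : ∀ y, y ∈ x :: w) :
    ∃ f : Fin (Fintype.card V) ≃ V, ∑ i, d (f i) (f (finRotate _ i)) ≤ Q d x w x := by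
  set m : List V := (w.filter (fun y => y ≠ x)).dedup with hm
  have hsub : List.Sublist m w :=
    (List.dedup_sublist _).trans List.filter_sublist
  have hnd : (x :: m).Nodup := by
    rw [List.nodup_cons]
    refine ⟨?_, List.nodup_dedup _⟩
    intro h
    rw [hm, List.mem_dedup, List.mem_filter] at h
    simp at h
  have hall : ∀ y, y ∈ x :: m := by
    intro y
    have h1 := hw y
    rw [List.mem_cons] at h1
    by_cases hy : y = x
    · rw [hy]; simp
    · rcases h1 with h1 | h1
      · exact absurd h1 hy
      · rw [List.mem_cons]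
        right
        rw [hm, List.mem_dedup, List.mem_filter]
        exact ⟨h1, by simpa using hy⟩
  have hn : (x :: m).length = Fintype.card V := by
    rw [← List.toFinset_card_of_nodup hnd]
    have : (x :: m).toFinset = Finset.univ := by
      ext y
      simp only [List.mem_toFinset, Finset.mem_univ, iff_true]
      exact hall y
    rw [this, Finset.card_univ]
  have hn' : m.length + 1 = Fintype.card V := by rw [← hn, List.length_cons]
  rw [← hn']
  let f : Fin (m.length + 1) ≃ V := List.Nodup.getEquivOfForallMemList (x :: m) hnd hall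
  refine ⟨f, ?_⟩
  have hf : ∀ i, f i = (x :: m).get i := fun i => rfl
  have e : ∑ i, d (f i) (f (finRotate _ i)) = Q d x m x := by
    rw [Fin.sum_univ_castSucc, ← sumQ d x m x]
    congr 1
    · apply Finset.sum_congr rfl
      intro i _
      have : finRotate (m.length + 1) i.castSucc = i.succ := by
        rw [finRotate_apply]
        exact Fin.coeSucc_eq_succ
      rw [this, hf, hf]
    · rw [finRotate_last, hf, hf]
      rfl
  rw [e]
  exact sub d htri x m _ hsub x

end short

/-- the cost of a closed trail -/
theorem trail_cost {E V : Type} (a b : E → V) (d : V → V → ℝ) (x : E × Bool)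
    (l : List (E × Bool)) (h : (x :: l).IsChain (fun x y => hd a b x = tl a b y)) :
    Q d (tl a b x) (l.map (tl a b)) (hd a b ((x :: l).getLast (by simp))) =
      ((x :: l).map fun y => d (tl a b y) (hd a b y)).sum := by
  induction l generalizing x with
  | nil => simp [Q]
  | cons y l ih =>
    rw [List.isChain_cons_cons] at h
    have e1 := ih y h.2
    have e2 : (x :: y :: l).getLast (by simp) = (y :: l).getLast (by simp) := List.getLast_cons _
    rw [e2]
    show d (tl a b x) (tl a b y) + Q d (tl a b y) (l.map (tl a b)) _ =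
      d (tl a b x) (hd a b x) + ((y :: l).map fun y => d (tl a b y) (hd a b y)).sum
    rw [e1, h.1]

end Pool.Agent.R553.SP
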